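import Pool.Agent.Q178.StrongD.Space

set_option autoImplicit false

/-!
Pointwise function spaces into a strong d-space need not be strong d-spaces.
-/

universe u

namespace Pool.Agent.Results.MP_5f2357_gt.FunctionSpaces

open Q178.StrongD Set

/-- The set of continuous maps from `X` to `Y`, with the topology of pointwise convergence, that
is, the subspace topology inherited from the product space of all maps from `X` to `Y`. -/
abbrev Top0 (X : Type u) (Y : Type) [TopologicalSpace X] [TopologicalSpace Y] : Type u :=
  {f : X → Y // Continuous f}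

lemma subsingleton_strong {T : Type u} [TopologicalSpace T] [T0Space T] [Subsingleton T] :
    IsStrongDSpace T := by
  refine ⟨inferInstance, fun D hD x U _ h => ?_⟩
  obtain ⟨d, hd⟩ := hD.1
  refine ⟨d, hd, fun z hz => h ⟨?_, hz.2⟩⟩
  refine mem_iInter₂.2 fun d' _ => ?_
  rw [Subsingleton.elim d' d]
  exact hz.1

lemma strong_of_homeo {S T : Type u} [TopologicalSpace S] [TopologicalSpace T]
    (hS : IsStrongDSpace S) (e : S ≃ₜ T) : IsStrongDSpace T := by
  have hle : ∀ p q : S, SpecLE p q ↔ SpecLE (e p) (e q) := fun p q =>
    specLE_inducing e.isInducing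
  have := hS.t0
  refine ⟨e.symm.isEmbedding.t0Space, fun D hD x U hU h => ?_⟩
  obtain ⟨d, hd, h1⟩ := hS.strong (e ⁻¹' D) ⟨by
      obtain ⟨t, ht⟩ := hD.1
      exact ⟨e.symm t, by simpa using ht⟩, fun p hp q hq => by
      obtain ⟨r, hr, h1, h2⟩ := hD.2 _ hp _ hq
      refine ⟨e.symm r, by simpa using hr, ?_, ?_⟩
      · rw [hle]
        simpa using h1
      · rw [hle]
        simpa using h2⟩ (e.symm x) (e ⁻¹' U) (hU.preimage e.continuous) (by
      rintro p ⟨hp1, hp2⟩
      apply h
      refine ⟨mem_iInter₂.2 fun d hd => ?_, ?_⟩
      · have : SpecLE (e.symm d) p := mem_iInter₂.1 hp1 (e.symm d) (by simpa using hd)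
        rw [hle] at this
        change SpecLE _ _
        simpa using this
      · have : SpecLE (e.symm x) p := hp2
        rw [hle] at this
        change SpecLE _ _
        simpa using this)
  refine ⟨e d, hd, ?_⟩
  rintro z ⟨hz1, hz2⟩
  have hz1' : SpecLE (e d) z := hz1
  have hz2' : SpecLE x z := hz2
  have : e.symm z ∈ e ⁻¹' U := by
    apply h1
    refine ⟨?_, ?_⟩
    · change SpecLE _ _
      rw [hle]
      simpa using hz1'
    · change SpecLE _ _
      rw [hle]
      simpa using hz2'
  simpa using this

/-- **Pointwise function spaces into strong d-spaces.** There is a strong d-space `Z` such that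
for every T0 space `X` the space `Top0 X Z` of continuous maps with the topology of pointwise
convergence is T0, and it is a strong d-space only in the trivial case that `X` has at most one
point. -/
theorem result : ∃ (Z : Type) (_ : TopologicalSpace Z), IsStrongDSpace Z ∧
    ∀ (X : Type u) [TopologicalSpace X] [T0Space X],
      T0Space (Top0 X Z) ∧ (IsStrongDSpace (Top0 X Z) ↔ Subsingleton X) := by
  classical
  refine ⟨Z, inferInstance, isStrongDSpace_Z, fun X _ _ => ⟨inferInstance, ?_, ?_⟩⟩
  · intro hstr
    by_contra hX
    rw [not_subsingleton_iff_nontrivial] at hX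
    obtain ⟨p, q, hne⟩ := exists_pair_ne X
    -- an open set containing exactly one of the two points
    obtain ⟨O, hO, x0, x1, h0, h1⟩ : ∃ O : Set X, IsOpen O ∧ ∃ x0 x1, x0 ∉ O ∧ x1 ∈ O := by
      obtain ⟨O, hO, h⟩ := exists_isOpen_xor_mem hne
      rcases h with ⟨h1, h2⟩ | ⟨h1, h2⟩
      · exact ⟨O, hO, q, p, h2, h1⟩
      · exact ⟨O, hO, p, q, h2, h1⟩
    have hcont : ∀ u v : Z, le u v → Continuous fun x => if x ∈ O then v else u := by
      intro u v huv
      rw [continuous_def]
      intro W hW
      have hW' : OpenZ W := hW
      by_cases hu : u ∈ W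
      · have hv : v ∈ W := hW'.upper _ _ huv hu
        have : (fun x => if x ∈ O then v else u) ⁻¹' W = univ := by
          rw [eq_univ_iff_forall]
          intro x
          by_cases hx : x ∈ O
          · simpa [hx] using hv
          · simpa [hx] using hu
        rw [this]
        exact isOpen_univ
      · by_cases hv : v ∈ W
        · have : (fun x => if x ∈ O then v else u) ⁻¹' W = O := by
            ext x
            by_cases hx : x ∈ O
            · simpa [hx] using hv
            · simpa [hx] using hu
          rw [this]
          exact hO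
        · have : (fun x => if x ∈ O then v else u) ⁻¹' W = ∅ := by
            rw [eq_empty_iff_forall_notMem]
            intro x
            by_cases hx : x ∈ O
            · simpa [hx] using hv
            · simpa [hx] using hu
          rw [this]
          exact isOpen_empty
    revert hstr
    apply not_strong (I := X) (fun f : Top0 X Z => (f : X → Z)) Topology.IsInducing.subtypeVal
      O x0 x1 h0 h1 (fun α => ⟨fun _ => Z.l α, continuous_const⟩) (fun _ _ => rfl)
      ⟨_, hcont Z.o Z.y (by simp [le])⟩ ?_ ?_
      (fun α => ⟨_, hcont (Z.l α) (Z.b α) (by simp [le])⟩) ?_ ?_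
    · intro i hi
      exact if_pos hi
    · intro i hi
      exact if_neg hi
    · intro α i hi
      exact if_pos hi
    · intro α i hi
      exact if_neg hi
  · intro hX
    rcases isEmpty_or_nonempty X with hE | hN
    · have : Subsingleton (Top0 X Z) := ⟨fun f g => Subtype.ext (funext fun x => (hE.false x).elim)⟩
      exact subsingleton_strong
    · obtain ⟨x⟩ := hN
      have hul : IsStrongDSpace (ULift.{u} Z) := by
        have hle : ∀ p q : ULift.{u} Z, SpecLE p q ↔ le p.down q.down := fun p q => by
          rw [specLE_inducing (f := ULift.down) Homeomorph.ulift.isInducing, specLE_iff]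
        refine ⟨inferInstance, fun D hD x U hU h => ?_⟩
        obtain ⟨d, ⟨d', hd', rfl⟩, h1⟩ := strong (ULift.down '' D) ⟨hD.1.image _, by
            rintro _ ⟨p, hp, rfl⟩ _ ⟨q, hq, rfl⟩
            obtain ⟨r, hr, h1, h2⟩ := hD.2 p hp q hq
            exact ⟨r.down, ⟨r, hr, rfl⟩, specLE_iff.2 ((hle _ _).1 h1),
              specLE_iff.2 ((hle _ _).1 h2)⟩⟩ x.down (ULift.up ⁻¹' U)
          (hU.preimage Homeomorph.ulift.symm.continuous) (by
            rintro z ⟨hz1, hz2⟩
            apply h
            refine ⟨mem_iInter₂.2 fun d hd => ?_, ?_⟩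
            · exact (hle _ _).2 (mem_up.1 (mem_iInter₂.1 hz1 d.down ⟨d, hd, rfl⟩))
            · exact (hle _ _).2 (mem_up.1 hz2))
        refine ⟨d', hd', ?_⟩
        rintro z ⟨hz1, hz2⟩
        exact h1 (a := z.down) ⟨mem_up.2 ((hle _ _).1 hz1), mem_up.2 ((hle _ _).1 hz2)⟩
      refine strong_of_homeo hul
        { toFun := fun z => ⟨fun _ => z.down, continuous_const⟩
          invFun := fun f => ⟨f.1 x⟩
          left_inv := fun _ => rfl
          right_inv := fun f => Subtype.ext (funext fun x' => by rw [Subsingleton.elim x' x])
          continuous_toFun := ?_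
          continuous_invFun := ?_ }
      · exact (continuous_pi fun _ => Homeomorph.ulift.continuous).subtype_mk _
      · exact Homeomorph.ulift.symm.continuous.comp
          ((continuous_apply x).comp continuous_subtype_val)

end Pool.Agent.Results.MP_5f2357_gt.FunctionSpaces
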